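import Pool.Agent.H91.AS5

set_option autoImplicit false

theorem Pool.Agent.Results.MP_034ad4_an.DimOne.result :
    dimH {x | x ∈ Set.Ico (0 : ℝ) 1 ∧ dimH (H91.AS.AS H91.AS.gauss (Set.Ico 0 1) x) = 1 / 2} = 1 :=
  H91.AS.gaussLevel
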